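import Pool.Agent.Helper63.PGR.Step

/-!
# PG (MP_d72c68_al): powers and arithmetic
-/

set_option autoImplicit false

namespace Pool.Agent.Helper63.PGR

open Pool.Agent.Helper46.RL

/-- the exponent: `2` for odd `p`, `3` for `p = 2` -/
def ex (p : ℕ) : ℕ := if p = 2 then 3 else 2

theorem tr {G : Type} [Mul G] {S T U : Set G} {n m : ℕ} (h : Re S n T) (h' : Re (S ∪ T) m U) :
    Re S (n + m) U := (h.trans h').sub Set.subset_union_right

/-- the binary method; `L` doublings and `k` further multiplications -/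
theorem pow_chain {G : Type} [Monoid G] (x : G) : ∀ j : ℕ, 1 ≤ j → ∃ L k : ℕ,
    Re ({x} : Set G) (L + k) {x ^ j} ∧ 2 ^ L + 2 ^ k ≤ j + 1 := by
  intro j
  induction j using Nat.strong_induction_on with
  | _ j ih =>
    intro hj
    rcases Nat.lt_or_ge j 2 with h2 | h2
    · obtain rfl : j = 1 := by omega
      refine ⟨0, 0, Re.refl ?_, by norm_num⟩
      rw [pow_one]
    · rcases Nat.even_or_odd' j with ⟨i, rfl | rfl⟩
      · obtain ⟨L, k, h, hl⟩ := ih i (by omega) (by omega)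
        refine ⟨L + 1, k, ?_, ?_⟩
        · have h3 := h.step (a := x ^ i) (b := x ^ i) (Or.inr rfl) (Or.inr rfl)
          have e : x ^ i * x ^ i = x ^ (2 * i) := by rw [← pow_add]; congr 1; ring
          rw [e] at h3
          have h4 := h3.sub (U := {x ^ (2 * i)}) (by simp)
          have e2 : L + 1 + k = L + k + 1 := by ring
          rw [e2]; exact h4
        · have : 1 ≤ 2 ^ k := Nat.one_le_two_pow
          rw [pow_succ]; omega
      · obtain ⟨L, k, h, hl⟩ := ih i (by omega) (by omega)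
        refine ⟨L + 1, k + 1, ?_, ?_⟩
        · have h3 := h.step (a := x ^ i) (b := x ^ i) (Or.inr rfl) (Or.inr rfl)
          have h4 := h3.step (a := x ^ i * x ^ i) (b := x) (Or.inr (Or.inl rfl)) (Or.inl rfl)
          have e : x ^ i * x ^ i * x = x ^ (2 * i + 1) := by
            rw [← pow_add, ← pow_succ]; congr 1; ring
          rw [e] at h4
          have h5 := h4.sub (U := {x ^ (2 * i + 1)}) (by simp)
          have e2 : L + 1 + (k + 1) = L + k + 1 + 1 := by ring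
          rw [e2]; exact h5
        · rw [pow_succ, pow_succ]; omega

theorem pow_chain_even {G : Type} [Monoid G] (x : G) (i : ℕ) (hi : 1 ≤ i) : ∃ L k : ℕ, 1 ≤ L ∧
    Re ({x} : Set G) (L + k) {x ^ (2 * i)} ∧ 2 ^ L + 2 * 2 ^ k ≤ 2 * i + 2 := by
  obtain ⟨L, k, h, hl⟩ := pow_chain x i hi
  refine ⟨L + 1, k, by omega, ?_, ?_⟩
  · have h3 := h.step (a := x ^ i) (b := x ^ i) (Or.inr rfl) (Or.inr rfl)
    have e : x ^ i * x ^ i = x ^ (2 * i) := by rw [← pow_add]; congr 1; ring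
    rw [e] at h3
    have h4 := h3.sub (U := {x ^ (2 * i)}) (by simp)
    have e2 : L + 1 + k = L + k + 1 := by ring
    rw [e2]; exact h4
  · rw [pow_succ]; omega

/-- the chain for `x ^ (p - 1)` -/
theorem pow_pred {G : Type} [Monoid G] {p : ℕ} (hp : p.Prime) (x : G) : ∃ l : ℕ,
    Re ({x} : Set G) l {x ^ (p - 1)} ∧ 2 ^ (l + 2) ≤ p ^ ex p := by
  rcases hp.eq_two_or_odd' with rfl | hodd
  · refine ⟨0, Re.refl (by simp), by norm_num [ex]⟩
  · obtain ⟨i, rfl⟩ := hodd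
    have hi : 1 ≤ i := by
      rcases Nat.eq_zero_or_pos i with h | h
      · subst h; exact absurd hp (by norm_num)
      · exact h
    obtain ⟨L, k, hL, h, hl⟩ := pow_chain_even x i hi
    refine ⟨L + k, h, ?_⟩
    have hne : 2 * i + 1 ≠ 2 := by omega
    rw [ex, if_neg hne]
    have hA : 2 ≤ 2 ^ L := by
      calc 2 = 2 ^ 1 := by norm_num
        _ ≤ 2 ^ L := Nat.pow_le_pow_right (by norm_num) hL
    have hB : 1 ≤ 2 ^ k := Nat.one_le_two_pow
    have e : 2 ^ (L + k + 2) = 4 * (2 ^ L * 2 ^ k) := by rw [pow_add, pow_add]; ring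
    rw [e]
    generalize 2 ^ L = A at *
    generalize 2 ^ k = B at *
    obtain ⟨A', rfl⟩ := Nat.exists_eq_add_of_le hA
    obtain ⟨B', rfl⟩ := Nat.exists_eq_add_of_le hB
    have h1 : A' + 2 * B' + 3 ≤ 2 * i + 1 := by omega
    have h2 : (A' + 2 * B' + 3) ^ 2 ≤ (2 * i + 1) ^ 2 := Nat.pow_le_pow_left h1 2
    refine le_trans ?_ h2
    nlinarith [sq_nonneg A', sq_nonneg B']

theorem ar_C {L k j n : ℕ} (h : 2 ^ L + 2 ^ k ≤ j + 1) (hj : j ≤ n) (hn : 2 ≤ n) :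
    2 ^ (L + k + 1) ≤ n ^ 2 := by
  have hA : 1 ≤ 2 ^ L := Nat.one_le_two_pow
  have hB : 1 ≤ 2 ^ k := Nat.one_le_two_pow
  have e : 2 ^ (L + k + 1) = 2 * (2 ^ L * 2 ^ k) := by rw [pow_add, pow_add]; ring
  rw [e]
  generalize 2 ^ L = A at *
  generalize 2 ^ k = B at *
  obtain ⟨A', rfl⟩ := Nat.exists_eq_add_of_le hA
  obtain ⟨B', rfl⟩ := Nat.exists_eq_add_of_le hB
  rcases Nat.eq_zero_or_pos (A' + B') with h0 | h0
  · obtain rfl : A' = 0 := by omega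
    obtain rfl : B' = 0 := by omega
    nlinarith
  · have h1 : A' + B' + 1 ≤ n := by omega
    have h2 : (A' + B' + 1) ^ 2 ≤ n ^ 2 := Nat.pow_le_pow_left h1 2
    refine le_trans ?_ h2
    have h3 : 1 ≤ A' ^ 2 + B' ^ 2 := by
      rcases Nat.eq_zero_or_pos A' with h4 | h4
      · subst h4
        have : 1 ≤ B' := by omega
        nlinarith
      · nlinarith
    nlinarith

theorem ar_R2 {L k j P : ℕ} (h : 2 ^ L + 2 ^ k ≤ j + 1) (hj : 2 * j + 1 ≤ P) :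
    2 ^ (L + k + 3) ≤ P ^ 2 := by
  have hA : 1 ≤ 2 ^ L := Nat.one_le_two_pow
  have hB : 1 ≤ 2 ^ k := Nat.one_le_two_pow
  have e : 2 ^ (L + k + 3) = 8 * (2 ^ L * 2 ^ k) := by rw [pow_add, pow_add]; ring
  rw [e]
  generalize 2 ^ L = A at *
  generalize 2 ^ k = B at *
  obtain ⟨A', rfl⟩ := Nat.exists_eq_add_of_le hA
  obtain ⟨B', rfl⟩ := Nat.exists_eq_add_of_le hB
  have h1 : 2 * A' + 2 * B' + 3 ≤ P := by omega
  have h2 : (2 * A' + 2 * B' + 3) ^ 2 ≤ P ^ 2 := Nat.pow_le_pow_left h1 2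
  refine le_trans ?_ h2
  nlinarith [sq_nonneg A', sq_nonneg B']

theorem ar_R3 {L k j P : ℕ} (h : 2 ^ L + 2 ^ k ≤ j + 1) (hj : 2 * j + 3 ≤ P) :
    2 ^ (L + k + 4) ≤ P ^ 2 := by
  have e : 2 ^ (L + k + 4) = 16 * (2 ^ L * 2 ^ k) := by rw [pow_add, pow_add]; ring
  rw [e]
  generalize 2 ^ L = A at *
  generalize 2 ^ k = B at *
  have h1 : 2 * (A + B) + 1 ≤ P := by omega
  have h2 : (2 * (A + B) + 1) ^ 2 ≤ P ^ 2 := Nat.pow_le_pow_left h1 2
  refine le_trans ?_ h2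
  zify
  nlinarith [sq_nonneg ((A : ℤ) - B)]

theorem ar_two {L k j P : ℕ} (h : 2 ^ L + 2 ^ k ≤ j + 1) (hj : 2 * j ≤ P) (hP : 4 ≤ P) :
    2 ^ (L + k + 4) ≤ P ^ 3 := by
  have hA : 1 ≤ 2 ^ L := Nat.one_le_two_pow
  have hB : 1 ≤ 2 ^ k := Nat.one_le_two_pow
  have e : 2 ^ (L + k + 4) = 16 * (2 ^ L * 2 ^ k) := by rw [pow_add, pow_add]; ring
  rw [e]
  generalize 2 ^ L = A at *
  generalize 2 ^ k = B at *
  have h1 : A ≤ j := by omega
  have h2 : B ≤ j := by omega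
  have h3 : A * B ≤ j * j := Nat.mul_le_mul h1 h2
  have h4 : (2 * j) * (2 * j) ≤ P * P := Nat.mul_le_mul hj hj
  have h5 : 4 * (P * P) ≤ P ^ 3 := by
    have : P ^ 3 = P * (P * P) := by ring
    rw [this]
    exact Nat.mul_le_mul_right _ hP
  calc 16 * (A * B) ≤ 4 * ((2 * j) * (2 * j)) := by nlinarith
    _ ≤ 4 * (P * P) := by omega
    _ ≤ P ^ 3 := h5

theorem num {u r m P c : ℕ} (h1 : 2 ^ u ≤ 4 * m ^ c) (h2 : 2 ^ r ≤ P ^ c) :
    2 ^ (r + u) ≤ 4 * (P * m) ^ c := by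
  rw [pow_add, mul_pow]
  calc 2 ^ r * 2 ^ u ≤ P ^ c * (4 * m ^ c) := Nat.mul_le_mul h2 h1
    _ = 4 * (P ^ c * m ^ c) := by ring

theorem le_ex {p n : ℕ} (hn : 1 ≤ n) : n ^ 2 ≤ n ^ ex p := by
  apply Nat.pow_le_pow_right hn
  unfold ex
  split_ifs <;> norm_num

end Pool.Agent.Helper63.PGR
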