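import Mathlib
import Pool.Agent.Helper46.RL.Defs

/-!
# PG (MP_d72c68_al): homomorphisms of finite `p`-groups to `ZMod p`, independent sets
-/

set_option autoImplicit false

namespace Pool.Agent.Helper63.PGR

open Pool.Agent.Helper46.RL

/-- `f` is a homomorphism to the additive group of `ZMod p`. -/
def IsH (p : ℕ) {G : Type} [Mul G] (f : G → ZMod p) : Prop := ∀ a b, f (a * b) = f a + f b

section
variable {p : ℕ} {G : Type} [Group G] {f g : G → ZMod p}

theorem IsH.one (h : IsH p f) : f 1 = 0 := by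
  have := h 1 1
  rw [mul_one] at this
  simpa using this

theorem IsH.inv (h : IsH p f) (a : G) : f a⁻¹ = -f a := by
  have := h a a⁻¹
  rw [mul_inv_cancel, h.one] at this
  exact (neg_eq_of_add_eq_zero_right this.symm).symm

theorem IsH.pow (h : IsH p f) (a : G) (n : ℕ) : f (a ^ n) = n * f a := by
  induction n with
  | zero => simp [h.one]
  | succ n ih => rw [pow_succ, h, ih]; push_cast; ring

theorem IsH.zpow (h : IsH p f) (a : G) (n : ℤ) : f (a ^ n) = n * f a := by
  cases n with
  | ofNat n => simpa using h.pow a n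
  | negSucc n =>
    rw [zpow_negSucc, h.inv, h.pow]
    push_cast
    ring

theorem IsH.conj (h : IsH p f) (a b : G) : f (a * b * a⁻¹) = f b := by
  rw [h, h, h.inv]; ring

theorem IsH.comb (hf : IsH p f) (hg : IsH p g) (c : ZMod p) : IsH p (fun x => f x + c * g x) := by
  intro a b
  show f (a * b) + c * g (a * b) = _
  rw [hf, hg]; ring

theorem IsH.smul (hf : IsH p f) (c : ZMod p) : IsH p (fun x => c * f x) := by
  intro a b
  show c * f (a * b) = _
  rw [hf]; ring

theorem IsH.sub (hf : IsH p f) (hg : IsH p g) : IsH p (fun x => f x - g x) := by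
  intro a b
  show f (a * b) - g (a * b) = _
  rw [hf, hg]; ring

theorem IsH.restrict (hf : IsH p f) (M : Subgroup G) : IsH p (fun m : M => f m) := by
  intro a b
  exact hf a b

/-- the kernel -/
def kerH (f : G → ZMod p) (h : IsH p f) : Subgroup G where
  carrier := {x | f x = 0}
  mul_mem' := by
    intro a b ha hb
    show f (a * b) = 0
    rw [h, ha, hb, add_zero]
  one_mem' := h.one
  inv_mem' := by
    intro a ha
    show f a⁻¹ = 0
    rw [h.inv, ha, neg_zero]

theorem mem_kerH (h : IsH p f) {x : G} : x ∈ kerH f h ↔ f x = 0 := Iff.rfl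

instance kerH_normal (h : IsH p f) : (kerH f h).Normal :=
  ⟨fun n hn g => by
    rw [mem_kerH] at hn ⊢
    rw [h.conj, hn]⟩

theorem IsH.closure (h : IsH p f) {S : Set G} (hS : ∀ s ∈ S, f s = 0) :
    ∀ g ∈ Subgroup.closure S, f g = 0 := by
  have : Subgroup.closure S ≤ kerH f h := (Subgroup.closure_le _).2 hS
  intro g hg
  exact this hg

/-- the homomorphism as a monoid homomorphism -/
def toHom (f : G → ZMod p) (h : IsH p f) : G →* Multiplicative (ZMod p) where
  toFun x := Multiplicative.ofAdd (f x)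
  map_one' := by rw [h.one]; rfl
  map_mul' a b := by rw [h]; rfl

/-- the kernel of a surjective homomorphism has index `p` -/
theorem index_kerH [NeZero p] (h : IsH p f) {x : G} (hx : f x = 1) : (kerH f h).index = p := by
  have e : kerH f h = (toHom f h).ker := by
    ext y
    rw [mem_kerH, MonoidHom.mem_ker]
    exact ofAdd_eq_one.symm
  have hs : Function.Surjective (toHom f h) := by
    intro z
    refine ⟨x ^ (Multiplicative.toAdd z).val, ?_⟩
    show Multiplicative.ofAdd (f (x ^ (Multiplicative.toAdd z).val)) = z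
    rw [h.pow, hx, mul_one, ZMod.natCast_zmod_val]
    rfl
  rw [e, Subgroup.index_ker, MonoidHom.range_eq_top.2 hs, Subgroup.card_top]
  simp

end

/-- A proper subgroup of a finite `p`-group is in the kernel of a nonzero homomorphism. -/
theorem exists_hom {p : ℕ} [hp : Fact p.Prime] {G : Type} [Group G] [Finite G] (hG : IsPGroup p G)
    (H : Subgroup G) (hH : H ≠ ⊤) :
    ∃ f : G → ZMod p, IsH p f ∧ (∀ h ∈ H, f h = 0) ∧ ∃ g, f g ≠ 0 := by
  obtain ⟨K, hK, hHK⟩ := (eq_top_or_exists_le_coatom H).resolve_left hH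
  have hnil : Group.IsNilpotent G := hG.isNilpotent
  have hn : K.Normal := Subgroup.NormalizerCondition.normal_of_coatom K
    Group.normalizerCondition_of_isNilpotent hK
  have hnt : Nontrivial (G ⧸ K) := by
    rw [← not_subsingleton_iff_nontrivial]
    intro hsub
    exact hK.1 (QuotientGroup.subsingleton_iff.1 hsub)
  have hQ : IsPGroup p (G ⧸ K) := hG.to_quotient K
  have hdvd : p ∣ Nat.card (G ⧸ K) := by
    rcases hQ.card_eq_or_dvd with h | h
    · exact absurd h (Finite.one_lt_card_iff_nontrivial.2 hnt).ne'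
    · exact h
  obtain ⟨q, hq⟩ := exists_prime_orderOf_dvd_card' p hdvd
  have hgen : ∀ z : G ⧸ K, z ∈ Subgroup.zpowers q := by
    have h1 : K < (Subgroup.zpowers q).comap (QuotientGroup.mk' K) := by
      refine lt_of_le_of_ne ?_ ?_
      · intro k hk
        rw [Subgroup.mem_comap]
        have : QuotientGroup.mk' K k = 1 := (QuotientGroup.eq_one_iff k).2 hk
        rw [this]
        exact Subgroup.one_mem _
      · intro he
        obtain ⟨x, hx⟩ := QuotientGroup.mk'_surjective K q
        have h2 : x ∈ (Subgroup.zpowers q).comap (QuotientGroup.mk' K) := by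
          rw [Subgroup.mem_comap, hx]
          exact Subgroup.mem_zpowers q
        rw [← he] at h2
        have h3 : QuotientGroup.mk' K x = 1 := (QuotientGroup.eq_one_iff x).2 h2
        rw [hx] at h3
        rw [h3, orderOf_one] at hq
        exact hp.out.one_lt.ne hq
    have h2 := hK.2 _ h1
    intro z
    obtain ⟨x, hx⟩ := QuotientGroup.mk'_surjective K z
    have h3 : x ∈ (Subgroup.zpowers q).comap (QuotientGroup.mk' K) := by rw [h2]; trivial
    rw [Subgroup.mem_comap, hx] at h3
    exact h3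
  have hcard : Nat.card (G ⧸ K) = p := by
    rw [← hq]
    exact (orderOf_eq_card_of_forall_mem_zpowers hgen).symm
  set φ := (zmodMulEquivOfGenerator hgen hcard).symm
  refine ⟨fun x => Multiplicative.toAdd (φ (QuotientGroup.mk' K x)), ?_, ?_, ?_⟩
  · intro a b
    show Multiplicative.toAdd (φ (QuotientGroup.mk' K (a * b))) = _
    rw [map_mul, map_mul]
    rfl
  · intro h hh
    have : QuotientGroup.mk' K h = 1 := (QuotientGroup.eq_one_iff h).2 (hHK hh)
    show Multiplicative.toAdd (φ (QuotientGroup.mk' K h)) = 0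
    rw [this, map_one]
    rfl
  · obtain ⟨x, hx⟩ := QuotientGroup.mk'_surjective K q
    refine ⟨x, ?_⟩
    show Multiplicative.toAdd (φ (QuotientGroup.mk' K x)) ≠ 0
    rw [hx]
    intro h0
    have h1 : φ q = 1 := h0
    have h2 : q = 1 := by
      have := congrArg φ.symm h1
      simpa using this
    rw [h2, orderOf_one] at hq
    exact hp.out.one_lt.ne hq

/-! ### independent sets -/

/-- `T` is independent: there is a dual family of homomorphisms. -/
def Ind (p : ℕ) {G : Type} [Group G] (T : Set G) : Prop :=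
  ∀ t ∈ T, ∃ f : G → ZMod p, IsH p f ∧ f t = 1 ∧ ∀ s ∈ T, s ≠ t → f s = 0

section
variable {p : ℕ} [hp : Fact p.Prime] {G : Type} [Group G]

theorem Ind.insert {T : Set G} (hT : Ind p T) {w : G} {θ : G → ZMod p} (hθ : IsH p θ)
    (h0 : ∀ t ∈ T, θ t = 0) (hw : θ w ≠ 0) : Ind p (insert w T) := by
  have hwT : w ∉ T := fun h => hw (h0 w h)
  rintro t (rfl | ht)
  · refine ⟨fun x => (θ t)⁻¹ * θ x, hθ.smul _, inv_mul_cancel₀ hw, ?_⟩
    rintro s (rfl | hs) hne
    · exact absurd rfl hne
    · show (θ t)⁻¹ * θ s = 0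
      rw [h0 s hs, mul_zero]
  · obtain ⟨f, hf, hft, hfs⟩ := hT t ht
    refine ⟨fun x => f x + (-(f w) * (θ w)⁻¹) * θ x, hf.comb hθ _, ?_, ?_⟩
    · show f t + (-(f w) * (θ w)⁻¹) * θ t = 1
      rw [h0 t ht, hft]; ring
    · rintro s (rfl | hs) hne
      · show f s + (-(f s) * (θ s)⁻¹) * θ s = 0
        rw [mul_assoc, inv_mul_cancel₀ hw]; ring
      · show f s + (-(f w) * (θ w)⁻¹) * θ s = 0
        rw [h0 s hs, hfs s hs hne]; ring

theorem exists_ind [Finite G] (hG : IsPGroup p G) (X : Set G) (hX : Subgroup.closure X = ⊤) :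
    ∃ B ⊆ X, Ind p B ∧ Subgroup.closure B = ⊤ := by
  have hfin : {B : Set G | B ⊆ X ∧ Subgroup.closure B = ⊤}.Finite := Set.toFinite _
  obtain ⟨B, ⟨hBX, hB⟩, hmin⟩ := hfin.exists_minimal ⟨X, le_rfl, hX⟩
  refine ⟨B, hBX, ?_, hB⟩
  intro b hb
  have h1 : Subgroup.closure (B \ {b}) ≠ ⊤ := by
    intro h
    have h2 := hmin (y := B \ {b}) ⟨Set.diff_subset.trans hBX, h⟩ Set.diff_subset
    have h3 := h2 hb
    exact h3.2 rfl
  obtain ⟨f, hf, hf0, g, hg⟩ := exists_hom hG _ h1
  have hfb : f b ≠ 0 := by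
    intro h0
    apply hg
    refine hf.closure (S := B) ?_ g (by rw [hB]; trivial)
    intro s hs
    by_cases hsb : s = b
    · rw [hsb]; exact h0
    · exact hf0 s (Subgroup.subset_closure ⟨hs, hsb⟩)
  refine ⟨fun x => (f b)⁻¹ * f x, hf.smul _, inv_mul_cancel₀ hfb, ?_⟩
  intro s hs hne
  show (f b)⁻¹ * f s = 0
  rw [hf0 s (Subgroup.subset_closure ⟨hs, hne⟩), mul_zero]

end

/-- In a finite group, a set stable under conjugation by `S` is stable under conjugation by
the subgroup generated by `S`. -/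
theorem conj_closed {G : Type} [Group G] [Finite G] {S K : Set G}
    (hK : ∀ s ∈ S, ∀ k ∈ K, s * k * s⁻¹ ∈ K) :
    ∀ g ∈ Subgroup.closure S, ∀ k ∈ K, g * k * g⁻¹ ∈ K := by
  intro g hg
  induction hg using Subgroup.closure_induction with
  | mem x hx => exact hK x hx
  | one => intro k hk; simpa using hk
  | mul x y _ _ ihx ihy =>
    intro k hk
    have := ihx _ (ihy k hk)
    have e : x * y * k * (x * y)⁻¹ = x * (y * k * y⁻¹) * x⁻¹ := by group
    rw [e]; exact this
  | inv x _ ih =>
    have hpow : ∀ n : ℕ, ∀ k ∈ K, x ^ n * k * (x ^ n)⁻¹ ∈ K := by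
      intro n
      induction n with
      | zero => intro k hk; simpa using hk
      | succ n ihn =>
        intro k hk
        have := ih _ (ihn k hk)
        have e : x ^ (n + 1) * k * (x ^ (n + 1))⁻¹ = x * (x ^ n * k * (x ^ n)⁻¹) * x⁻¹ := by
          rw [pow_succ']; group
        rw [e]; exact this
    have hinv : x⁻¹ ∈ Submonoid.powers x := by
      rw [mem_powers_iff_mem_zpowers]
      exact Subgroup.inv_mem _ (Subgroup.mem_zpowers x)
    obtain ⟨n, hn⟩ := hinv
    intro k hk
    have := hpow n k hk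
    simp only at hn
    rwa [hn] at this

end Pool.Agent.Helper63.PGR
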