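import Pool.Agent.Helper63.PGR.Main

/-!
# PG (MP_d72c68_al): case `(B)` and the theorem
-/

set_option autoImplicit false

namespace Pool.Agent.Helper63.PGR

open Pool.Agent.Helper46.RL

section
variable {p : ℕ} [hp : Fact p.Prime] {G : Type} [Group G] [Finite G]

/-- Case `(B)`: no coordinate of `g` vanishes. -/
theorem caseB (hG : IsPGroup p G) (IH : ∀ M : Subgroup G, M ≠ ⊤ → Cl p M) {B : Set G}
    (hgen : Subgroup.closure B = ⊤) (hd : 2 ≤ B.ncard) {η : G → G → ZMod p}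
    (h1 : ∀ b ∈ B, IsH p (η b)) (h2 : ∀ b ∈ B, η b b = 1)
    (h3 : ∀ b ∈ B, ∀ s ∈ B, s ≠ b → η b s = 0) {g : G} (hg : ∀ b ∈ B, η b g ≠ 0) :
    ∃ n : ℕ, Re B n {g} ∧ 2 ^ (n + 2 * B.ncard) ≤ 4 * Nat.card G ^ ex p := by
  obtain ⟨y₁, hy₁, y₂, hy₂, hne, hgood2, hgood3⟩ := exists_pair hd (fun b => η b g) hg
  set y : G := y₁ * y₂ with hy
  set S : Set G := insert y (B \ {y₁, y₂}) with hS
  set N : Subgroup G := Subgroup.normalClosure S with hN
  have hSN : S ⊆ (N : Set G) := Subgroup.subset_normalClosure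
  have hyS : y ∈ S := Set.mem_insert _ _
  have hyN : y ∈ N := hSN hyS
  -- the dual homomorphisms
  have hy1 : η y₁ y = 1 := by
    rw [hy, h1 y₁ hy₁, h2 y₁ hy₁, h3 y₁ hy₁ y₂ hy₂ hne.symm, add_zero]
  have hSI : Ind p S := by
    intro t ht
    rcases ht with rfl | ht
    · refine ⟨η y₁, h1 y₁ hy₁, hy1, ?_⟩
      rintro s (rfl | hs) hst
      · exact absurd rfl hst
      · exact h3 y₁ hy₁ s hs.1 fun h => hs.2 (Or.inl h)
    · have ht1 : t ≠ y₁ := fun h => ht.2 (Or.inl h)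
      have ht2 : t ≠ y₂ := fun h => ht.2 (Or.inr h)
      refine ⟨η t, h1 t ht.1, h2 t ht.1, ?_⟩
      rintro s (rfl | hs) hst
      · rw [hy, h1 t ht.1, h3 t ht.1 y₁ hy₁ ht1.symm, h3 t ht.1 y₂ hy₂ ht2.symm, add_zero]
      · exact h3 t ht.1 s hs.1 hst
  have hyV : y ∉ B \ {y₁, y₂} := by
    intro h
    have h4 := h3 y₁ hy₁ y h.1 fun h5 => h.2 (Or.inl h5)
    rw [hy1] at h4
    exact one_ne_zero h4
  have hSc : S.ncard + 1 = B.ncard := by
    rw [hS, Set.ncard_insert_of_notMem hyV (Set.toFinite _)]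
    have h4 : ({y₁, y₂} : Set G).ncard = 2 := Set.ncard_pair hne
    have h5 : (B \ {y₁, y₂}).ncard + ({y₁, y₂} : Set G).ncard = B.ncard :=
      Set.ncard_diff_add_ncard_of_subset (by
        rintro z (rfl | rfl)
        · exact hy₁
        · exact hy₂) (Set.toFinite _)
    omega
  set T₀ : Set N := Subtype.val ⁻¹' S with hT₀
  have hT₀im : Subtype.val '' T₀ = S := image_pre N hSN
  have hT₀I : Ind p T₀ := ind_sub N hSI
  have hT₀c : T₀.ncard + 1 = B.ncard := by rw [hT₀, ncard_pre N hSN]; exact hSc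
  -- the homomorphism `δ`
  set δ : G → ZMod p := fun z => η y₁ z - η y₂ z with hδdef
  have hδ : IsH p δ := (h1 y₁ hy₁).sub (h1 y₂ hy₂)
  have hδ1 : δ y₁ = 1 := by
    show η y₁ y₁ - η y₂ y₁ = 1
    rw [h2 y₁ hy₁, h3 y₂ hy₂ y₁ hy₁ hne, sub_zero]
  have hδ2 : δ y₂ = -1 := by
    show η y₁ y₂ - η y₂ y₂ = -1
    rw [h2 y₂ hy₂, h3 y₁ hy₁ y₂ hy₂ hne.symm, zero_sub]
  have hδS : ∀ s ∈ S, δ s = 0 := by
    rintro s (rfl | hs)
    · rw [hy, hδ, hδ1, hδ2]; ring
    · show η y₁ s - η y₂ s = 0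
      rw [h3 y₁ hy₁ s hs.1 fun h => hs.2 (Or.inl h), h3 y₂ hy₂ s hs.1 fun h => hs.2 (Or.inr h),
        sub_zero]
  have hδN : ∀ z ∈ N, δ z = 0 := by
    have h4 : N ≤ kerH δ hδ := Subgroup.normalClosure_le_normal hδS
    intro z hz
    exact h4 hz
  -- the quotient is generated by `y₁`
  have hq : ∀ z : G ⧸ N, z ∈ Subgroup.zpowers (QuotientGroup.mk' N y₁) := by
    have h4 : Subgroup.closure B ≤
        (Subgroup.zpowers (QuotientGroup.mk' N y₁)).comap (QuotientGroup.mk' N) := by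
      rw [Subgroup.closure_le]
      intro b hb
      show QuotientGroup.mk' N b ∈ Subgroup.zpowers (QuotientGroup.mk' N y₁)
      by_cases hb1 : b = y₁
      · rw [hb1]; exact Subgroup.mem_zpowers _
      · by_cases hb2 : b = y₂
        · have h5 : QuotientGroup.mk' N (y₁ * y₂) = 1 := (QuotientGroup.eq_one_iff _).2 hyN
          rw [map_mul] at h5
          rw [hb2, (inv_eq_of_mul_eq_one_right h5).symm]
          exact Subgroup.inv_mem _ (Subgroup.mem_zpowers _)
        · have h5 : b ∈ N := hSN (Or.inr ⟨hb, by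
            rintro (h | h)
            · exact hb1 h
            · exact hb2 h⟩)
          have h6 : QuotientGroup.mk' N b = 1 := (QuotientGroup.eq_one_iff _).2 h5
          rw [h6]
          exact Subgroup.one_mem _
    intro z
    obtain ⟨x, rfl⟩ := QuotientGroup.mk'_surjective N z
    exact h4 (by rw [hgen]; trivial)
  -- generation of `G` by `T` and `y₁`
  have hgenT : ∀ T : Set N, T₀ ⊆ T → ∀ x : G, (x = y₁ ∨ x = y₁⁻¹) →
      Subgroup.closure (Subtype.val '' T ∪ {x}) = ⊤ := by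
    intro T hT x hx
    rw [eq_top_iff, ← hgen, Subgroup.closure_le]
    have hST : ∀ s ∈ S, s ∈ Subgroup.closure (Subtype.val '' T ∪ {x}) := by
      intro s hs
      refine Subgroup.subset_closure (Or.inl ?_)
      refine Set.image_mono hT ?_
      rw [hT₀im]; exact hs
    have hxm : x ∈ Subgroup.closure (Subtype.val '' T ∪ {x}) :=
      Subgroup.subset_closure (Or.inr rfl)
    have hy1m : y₁ ∈ Subgroup.closure (Subtype.val '' T ∪ {x}) := by
      rcases hx with h | h
      · rw [← h]; exact hxm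
      · have : y₁ = x⁻¹ := by rw [h, inv_inv]
        rw [this]; exact Subgroup.inv_mem _ hxm
    intro b hb
    by_cases hb1 : b = y₁
    · rw [hb1]; exact hy1m
    · by_cases hb2 : b = y₂
      · have : y₂ = y₁⁻¹ * y := by rw [hy]; group
        rw [hb2, this]
        exact Subgroup.mul_mem _ (Subgroup.inv_mem _ hy1m) (hST y hyS)
      · exact hST b (Or.inr ⟨hb, by
          rintro (h | h)
          · exact hb1 h
          · exact hb2 h⟩)
  -- production of new elements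
  have hprod : ∀ T : Set N, T₀ ⊆ T → Subgroup.closure T ≠ ⊤ → ∃ (w : N) (θ : N → ZMod p),
      IsH p θ ∧ (∀ t ∈ T, θ t = 0) ∧ θ w ≠ 0 ∧
      Re (({y₁, y₂} : Set G) ∪ Subtype.val '' T) 2 {(w : G)} := by
    intro T hT hTtop
    have hST : S ⊆ Subtype.val '' T := by
      intro s hs
      refine Set.image_mono hT ?_
      rw [hT₀im]; exact hs
    obtain ⟨θ, hθ, h0, t, ht, hne0⟩ := prodB hG S T hST y₁
      (hgenT T hT y₁ (Or.inl rfl)) hTtop
    refine ⟨cj N y₁ t * ⟨y, hyN⟩, θ, hθ, h0, ?_, ?_⟩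
    · have h4 : (⟨y, hyN⟩ : N) ∈ T := hT hyS
      rw [hθ, h0 _ h4, add_zero]
      exact hne0
    · have h4 : Re (({y₁, y₂} : Set G) ∪ Subtype.val '' T) 1 {y₁ * (t : G)} :=
        Re.mul (Or.inl (Or.inl rfl)) (Or.inr ⟨t, ht, rfl⟩)
      have h5 := h4.step (a := y₁ * (t : G)) (b := y₂) (Or.inr rfl)
        (Or.inl (Or.inl (Or.inr rfl)))
      have e : y₁ * (t : G) * y₂ = ((cj N y₁ t * ⟨y, hyN⟩ : N) : G) := by
        show y₁ * (t : G) * y₂ = (y₁ * t * y₁⁻¹) * (y₁ * y₂)
        group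
      rw [e] at h5
      exact h5.sub (by simp)
  have hNtop : N ≠ ⊤ := by
    intro h
    have h4 := hδN y₁ (by rw [h]; trivial)
    rw [hδ1] at h4
    exact one_ne_zero h4
  have hcard : Nat.card G = N.index * Nat.card N := by
    rw [← N.card_mul_index, mul_comm]
  have hT₀ne : T₀.Nonempty := ⟨⟨y, hyN⟩, hyS⟩
  have hReY : Re B 1 {y} := Re.mul hy₁ hy₂
  have hsrc : ∀ T : Set N, ({y₁, y₂} : Set G) ∪ Subtype.val '' T₀ ⊆ B ∪ {y} := by
    rintro T z ((rfl | rfl) | hz)
    · exact Or.inl hy₁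
    · exact Or.inl hy₂
    · rw [hT₀im] at hz
      rcases hz with rfl | hz
      · exact Or.inr rfl
      · exact Or.inl hz.1
  have hmap : ∀ (T : Set N) (n' : ℕ) (g' : N), Re T n' {g'} →
      Re (Subtype.val '' T : Set G) n' {(g' : G)} := by
    intro T n' g' h
    have := h.map (N.subtype : N →* G).toMulHom
    simp only [Set.image_singleton] at this
    exact this
  -- assembly of the chains
  have hasm : ∀ (T : Set N) (s n' e : ℕ) (g' : N), Re (B ∪ {y}) s (Subtype.val '' T) →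
      Re T n' {g'} → Re (B ∪ {(g' : G)}) e {g} → Re B (1 + (s + (n' + e))) {g} := by
    intro T s n' e g' k1 k2 k3
    refine tr hReY (tr k1 (tr ((hmap T n' g' k2).src Set.subset_union_right) (k3.src ?_)))
    rintro z (hz | hz)
    · exact Or.inl (Or.inl (Or.inl hz))
    · exact Or.inr hz
  by_cases hd3 : B.ncard = 2
  · -- two generators
    obtain ⟨g', e, hg'N, hRe, hnum⟩ := elt_cost hG N hy₁ hy₂ hyN hq hδ hδ1 hδ2 hδN
      (g := g) hgood2 2 (Or.inl rfl) (fun _ h => absurd h (by norm_num))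
    have hT₀1 : T₀.ncard = 1 := by omega
    by_cases htop : Subgroup.closure T₀ = ⊤
    · obtain ⟨n', hn', -, hstrong⟩ := IH N hNtop T₀ hT₀I htop hT₀ne ⟨g', hg'N⟩
      have hs := hstrong hT₀1
      refine ⟨1 + (0 + (n' + e)), ?_, ?_⟩
      · refine hasm T₀ 0 n' e ⟨g', hg'N⟩ (Re.refl ?_) hn' hRe
        intro z hz
        exact hsrc T₀ (Or.inr hz)
      · have h4 : 2 ^ (n' + 3) ≤ 4 * Nat.card N ^ ex p := by
          have e1 : 2 ^ (n' + 3) = 2 * 2 ^ (n' + 2) := by ring
          rw [e1]; omega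
        have h5 := num h4 hnum
        rw [hcard, hd3]
        have e1 : 1 + (0 + (n' + e)) + 2 * 2 = e + 2 + (n' + 3) := by ring
        rw [e1]; exact h5
    · -- the first new generator `y₂ y₁` costs one multiplication
      obtain ⟨θ, hθ, h0, t, ht, hne0⟩ := prodB hG S T₀ hT₀im.symm.subset y₁⁻¹
        (hgenT T₀ le_rfl _ (Or.inr rfl)) htop
      obtain ⟨t₀, ht₀⟩ := Set.ncard_eq_one.1 hT₀1
      have hty : (⟨y, hyN⟩ : N) ∈ T₀ := hyS
      have htt : t = ⟨y, hyN⟩ := by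
        rw [ht₀] at ht hty
        rw [Set.mem_singleton_iff.1 ht, Set.mem_singleton_iff.1 hty]
      set w : N := cj N y₁⁻¹ t with hw
      have hwG : (w : G) = y₂ * y₁ := by
        rw [hw, htt]
        show y₁⁻¹ * (y₁ * y₂) * y₁⁻¹⁻¹ = y₂ * y₁
        group
      have hwT : w ∉ T₀ := fun h => hne0 (h0 w h)
      have hI₁ : Ind p (insert w T₀) := hT₀I.insert hθ h0 hne0
      obtain ⟨T, a, hTT, hTI, hTgen, hTc, hTRe⟩ := enlarge N {y₁, y₂} (insert w T₀) hI₁
        (fun T hT => hprod T ((Set.subset_insert _ _).trans hT))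
      have hc1 : (insert w T₀).ncard = 2 := by
        rw [Set.ncard_insert_of_notMem hwT (Set.toFinite _), hT₀1]
      obtain ⟨n', hn', hn2, -⟩ := IH N hNtop T hTI hTgen
        (hT₀ne.mono ((Set.subset_insert _ _).trans hTT)) ⟨g', hg'N⟩
      have hRT : Re (B ∪ {y}) (1 + 2 * a) (Subtype.val '' T) := by
        have k1 : Re (B ∪ {y}) 1 {y₂ * y₁} := Re.mul (Or.inl hy₂) (Or.inl hy₁)
        refine tr k1 (hTRe.src ?_)
        rintro z (hz | hz)
        · exact Or.inl (hsrc T₀ (Or.inl hz))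
        · rw [Set.image_insert_eq, hwG] at hz
          rcases hz with rfl | hz
          · exact Or.inr rfl
          · exact Or.inl (hsrc T₀ (Or.inr hz))
      refine ⟨1 + (1 + 2 * a + (n' + e)), hasm T (1 + 2 * a) n' e ⟨g', hg'N⟩ hRT hn' hRe, ?_⟩
      have h5 := num hn2 hnum
      rw [hcard, hd3]
      have e1 : 1 + (1 + 2 * a + (n' + e)) + 2 * 2 = e + 2 + (n' + 2 * T.ncard) := by
        rw [hTc, hc1]; ring
      rw [e1]; exact h5
  · -- at least three generators
    obtain ⟨g', e, hg'N, hRe, hnum⟩ := elt_cost hG N hy₁ hy₂ hyN hq hδ hδ1 hδ2 hδN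
      (g := g) hgood2 3 (Or.inr rfl) (fun h _ => hgood3 h (by omega))
    obtain ⟨T, a, hTT, hTI, hTgen, hTc, hTRe⟩ := enlarge N {y₁, y₂} T₀ hT₀I hprod
    obtain ⟨n', hn', hn2, -⟩ := IH N hNtop T hTI hTgen (hT₀ne.mono hTT) ⟨g', hg'N⟩
    refine ⟨1 + (2 * a + (n' + e)), hasm T (2 * a) n' e ⟨g', hg'N⟩
      (hTRe.src (hsrc T₀)) hn' hRe, ?_⟩
    have h5 := num hn2 hnum
    rw [hcard]
    have e1 : 1 + (2 * a + (n' + e)) + 2 * B.ncard = e + 3 + (n' + 2 * T.ncard) := by
      omega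
    rw [e1]; exact h5

/-- The claim for all finite `p`-groups. -/
theorem claim : ∀ (N : ℕ) (G : Type) [Group G] [Finite G], Nat.card G = N → IsPGroup p G →
    Cl p G := by
  intro N
  induction N using Nat.strong_induction_on with
  | _ N ih =>
    intro G _ _ hN hG B hI hgen hBne g
    have IH : ∀ M : Subgroup G, M ≠ ⊤ → Cl p M := by
      intro M hM
      refine ih (Nat.card M) ?_ M rfl (hG.to_subgroup M)
      rw [← hN]
      have h1 := M.card_mul_index
      have h2 : M.index ≠ 1 := fun h => hM (Subgroup.index_eq_one.1 h)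
      have h3 : M.index ≠ 0 := Subgroup.index_ne_zero_of_finite
      have h4 : 0 < Nat.card M := Nat.card_pos
      have h5 : 2 ≤ M.index := by omega
      nlinarith
    have hBc : 1 ≤ B.ncard := (Set.ncard_pos (Set.toFinite B)).2 hBne
    rcases Nat.lt_or_ge B.ncard 2 with h2 | h2
    · have hB1 : B.ncard = 1 := by omega
      obtain ⟨b, rfl⟩ := Set.ncard_eq_one.1 hB1
      obtain ⟨f, hf, hfb, -⟩ := hI b rfl
      obtain ⟨n, hn, hn2⟩ := base hf hfb hgen g
      refine ⟨n, hn, ?_, fun _ => hn2⟩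
      rw [hB1, mul_one]
      omega
    · have hno : B.ncard ≠ 1 := by omega
      choose! η h1 h3 h4 using hI
      by_cases hA : ∃ x ∈ B, η x g = 0
      · obtain ⟨x, hx, hxg⟩ := hA
        obtain ⟨n, hn, hn2⟩ := caseA hG IH (fun t ht => ⟨η t, h1 t ht, h3 t ht, h4 t ht⟩) hgen h2
          hx (h1 x hx) (h3 x hx) (h4 x hx) hxg
        exact ⟨n, hn, hn2, fun h => absurd h hno⟩
      · push Not at hA
        obtain ⟨n, hn, hn2⟩ := caseB hG IH hgen h2 h1 h3 h4 hA
        exact ⟨n, hn, hn2, fun h => absurd h hno⟩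

end

/-- **Theorem.** In a nontrivial finite `p`-group every element is obtained from every generating
set with at most `c log₂|G| - 1` multiplications, `c = 2` for odd `p` and `c = 3` for `p = 2`,
and with at most `c log₂|G| + 2 - 2 d` multiplications, `d` the minimal number of generators. -/
theorem main {p : ℕ} (hp : p.Prime) (G : Type) [Group G] [Finite G] [Nontrivial G]
    (hG : IsPGroup p G) (X : Set G) (hX : Subgroup.closure X = ⊤) (g : G) :
    ∃ n : ℕ, Re X n {g} ∧ 2 ^ (n + 1) ≤ Nat.card G ^ ex p ∧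
      2 ^ (n + 2 * Group.rank G) ≤ 4 * Nat.card G ^ ex p := by
  have := Fact.mk hp
  obtain ⟨B, hBX, hI, hgen⟩ := exists_ind hG X hX
  have hBne : B.Nonempty := by
    rw [Set.nonempty_iff_ne_empty]
    rintro rfl
    rw [Subgroup.closure_empty] at hgen
    exact bot_ne_top hgen
  obtain ⟨n, hn, hn2, hn3⟩ := claim (p := p) _ G rfl hG B hI hgen hBne g
  have hBc : 1 ≤ B.ncard := (Set.ncard_pos (Set.toFinite B)).2 hBne
  have hr : Group.rank G ≤ B.ncard := by
    have hfin : B.Finite := Set.toFinite B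
    have h := Group.rank_le (S := hfin.toFinset) (by rw [hfin.coe_toFinset]; exact hgen)
    rwa [← Set.ncard_eq_toFinset_card B hfin] at h
  refine ⟨n, hn.src hBX, ?_, le_trans (Nat.pow_le_pow_right (by norm_num) (by omega)) hn2⟩
  rcases Nat.lt_or_ge B.ncard 2 with h2 | h2
  · have h4 := hn3 (by omega)
    have e : 2 ^ (n + 2) = 2 * 2 ^ (n + 1) := by ring
    rw [e] at h4
    exact Nat.le_of_mul_le_mul_left h4 (by norm_num)
  · have h5 : 2 ^ (n + 1 + 3) ≤ 2 ^ (n + 2 * B.ncard) :=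
      Nat.pow_le_pow_right (by norm_num) (by omega)
    have e : 2 ^ (n + 1 + 3) = 8 * 2 ^ (n + 1) := by ring
    rw [e] at h5
    omega

end Pool.Agent.Helper63.PGR
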