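import Pool.Agent.Helper63.PGR.Arith

/-!
# PG (MP_d72c68_al): the induction
-/

set_option autoImplicit false

namespace Pool.Agent.Helper63.PGR

open Pool.Agent.Helper46.RL

/-- The claim for one group. -/
def Cl (p : ℕ) (G : Type) [Group G] : Prop :=
  ∀ B : Set G, Ind p B → Subgroup.closure B = ⊤ → B.Nonempty → ∀ g : G,
    ∃ n : ℕ, Re B n {g} ∧ 2 ^ (n + 2 * B.ncard) ≤ 4 * Nat.card G ^ ex p ∧
      (B.ncard = 1 → 2 ^ (n + 2) ≤ 2 * Nat.card G ^ ex p)

private theorem z2 : ∀ s t : ZMod 2, s ≠ 0 → t ≠ 0 → s - t = 0 := by decide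

private theorem z3 : ∀ s t u : ZMod 3, s ≠ 0 → t ≠ 0 → u ≠ 0 → (s = t ∨ t = u ∨ s = u) := by
  decide

private theorem z3' : 2 * (0 : ZMod 3) ≠ 1 ∧ 2 * (0 : ZMod 3) ≠ -1 := by decide

section
variable {p : ℕ} [hp : Fact p.Prime] {G : Type} [Group G] [Finite G]

omit hp [Finite G] in
theorem ind_sub (M : Subgroup G) {S : Set G} (hI : Ind p S) :
    Ind p (Subtype.val ⁻¹' S : Set M) := by
  intro t ht
  obtain ⟨f, hf, hf1, hf0⟩ := hI t ht
  refine ⟨fun m => f m, hf.restrict M, hf1, ?_⟩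
  intro s hs hne
  exact hf0 s hs fun h => hne (Subtype.ext h)

omit hp [Finite G] in
theorem image_pre (M : Subgroup G) {S : Set G} (hS : S ⊆ M) :
    Subtype.val '' (Subtype.val ⁻¹' S : Set M) = S := by
  ext z
  constructor
  · rintro ⟨m, hm, rfl⟩; exact hm
  · intro hz; exact ⟨⟨z, hS hz⟩, hz, rfl⟩

omit hp [Finite G] in
theorem ncard_pre (M : Subgroup G) {S : Set G} (hS : S ⊆ M) :
    (Subtype.val ⁻¹' S : Set M).ncard = S.ncard := by
  conv_rhs => rw [← image_pre M hS]
  exact (Set.ncard_image_of_injective _ Subtype.val_injective).symm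

theorem base {b : G} {f : G → ZMod p} (hf : IsH p f) (hb : f b = 1)
    (hgen : Subgroup.closure {b} = ⊤) (g : G) :
    ∃ n : ℕ, Re ({b} : Set G) n {g} ∧ 2 ^ (n + 2) ≤ 2 * Nat.card G ^ ex p := by
  have hzp : ∀ z : G, z ∈ Subgroup.zpowers b := by
    intro z
    rw [Subgroup.zpowers_eq_closure, hgen]
    trivial
  have hord : orderOf b = Nat.card G := orderOf_eq_card_of_forall_mem_zpowers hzp
  have hne : b ≠ 1 := by
    rintro rfl
    rw [hf.one] at hb
    exact zero_ne_one hb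
  have hc : 2 ≤ Nat.card G := by
    have : Nontrivial G := ⟨⟨b, 1, hne⟩⟩
    exact Finite.one_lt_card
  have hk : ∃ k : ℕ, 1 ≤ k ∧ k ≤ Nat.card G ∧ b ^ k = g := by
    classical
    have h1 := hzp g
    rw [← mem_powers_iff_mem_zpowers, mem_powers_iff_mem_range_orderOf] at h1
    rw [Finset.mem_image] at h1
    obtain ⟨k, hk, hkg⟩ := h1
    rw [Finset.mem_range, hord] at hk
    rcases Nat.eq_zero_or_pos k with h0 | h0
    · refine ⟨Nat.card G, by omega, le_rfl, ?_⟩
      rw [← hord, pow_orderOf_eq_one]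
      rw [h0, pow_zero] at hkg
      exact hkg
    · exact ⟨k, h0, hk.le, hkg⟩
  obtain ⟨k, hk1, hk2, rfl⟩ := hk
  obtain ⟨L, k', h, hl⟩ := pow_chain b k hk1
  refine ⟨L + k', h, ?_⟩
  have h1 := ar_C hl hk2 hc
  have h2 := le_ex (p := p) (n := Nat.card G) (by omega)
  have e : 2 ^ (L + k' + 2) = 2 * 2 ^ (L + k' + 1) := by ring
  rw [e]
  exact Nat.mul_le_mul_left _ (h1.trans h2)

/-- Case `(A)`: some coordinate of `g` vanishes. -/
theorem caseA (hG : IsPGroup p G) (IH : ∀ M : Subgroup G, M ≠ ⊤ → Cl p M) {B : Set G}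
    (hI : Ind p B) (hgen : Subgroup.closure B = ⊤) (hd : 2 ≤ B.ncard) {x : G} (hxB : x ∈ B)
    {η : G → ZMod p} (hη : IsH p η) (hx : η x = 1) (h0 : ∀ s ∈ B, s ≠ x → η s = 0) {g : G}
    (hg : η g = 0) : ∃ n : ℕ, Re B n {g} ∧ 2 ^ (n + 2 * B.ncard) ≤ 4 * Nat.card G ^ ex p := by
  obtain ⟨l, hl, hl2⟩ := pow_pred hp.out x
  have hindex := index_kerH hη hx
  obtain ⟨M, hM, hMn, hMi⟩ : ∃ M : Subgroup G, (∀ g, g ∈ M ↔ η g = 0) ∧ M.Normal ∧ M.index = p :=
    ⟨kerH η hη, fun _ => Iff.rfl, inferInstance, hindex⟩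
  have hp1 : p - 1 + 1 = p := Nat.sub_add_cancel hp.out.one_lt.le
  have hS : B \ {x} ⊆ (M : Set G) := fun s hs => (hM s).2 (h0 s hs.1 hs.2)
  set T₀ : Set M := Subtype.val ⁻¹' (B \ {x}) with hT₀
  have hT₀im : Subtype.val '' T₀ = B \ {x} := image_pre M hS
  have hT₀I : Ind p T₀ := by
    refine ind_sub M ?_
    intro t ht
    obtain ⟨f, hf, hf1, hf0⟩ := hI t ht.1
    exact ⟨f, hf, hf1, fun s hs hne => hf0 s hs.1 hne⟩
  have hT₀c : T₀.ncard + 1 = B.ncard := by
    rw [hT₀, ncard_pre M hS]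
    exact Set.ncard_diff_singleton_add_one hxB
  have hxp : x ^ p ∈ M := by
    rw [hM, hη.pow, hx]; simp
  obtain ⟨T, a, hTT, hTI, hTgen, hTc, hTRe⟩ := enlarge M {x, x ^ (p - 1)} T₀ hT₀I (by
    intro T hT hTtop
    have hgen' : Subgroup.closure (Subtype.val '' T ∪ {x}) = ⊤ := by
      rw [eq_top_iff, ← hgen]
      refine Subgroup.closure_mono ?_
      intro b hb
      by_cases hbx : b = x
      · exact Or.inr hbx
      · left
        have : b ∈ Subtype.val '' T₀ := by rw [hT₀im]; exact ⟨hb, hbx⟩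
        exact Set.image_mono hT this
    obtain ⟨θ, hθ, hθ0, hc⟩ := prodA hG hη hx M hM T hgen' hTtop hxp
    rcases hc with h1 | ⟨h1, t, ht, h2⟩
    · refine ⟨⟨x ^ p, hxp⟩, θ, hθ, hθ0, h1, ?_⟩
      have h3 : Re (({x, x ^ (p - 1)} : Set G) ∪ Subtype.val '' T) 1 {x * x ^ (p - 1)} :=
        Re.mul (Or.inl (Or.inl rfl)) (Or.inl (Or.inr rfl))
      have e : x * x ^ (p - 1) = x ^ p := by rw [← pow_succ', hp1]
      rw [e] at h3
      exact h3.weaken (by norm_num)
    · have e : x * (t : G) * x ^ (p - 1) = (x * t * x⁻¹) * x ^ p := by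
        conv_rhs => rw [← hp1, pow_succ']
        group
      refine ⟨cj M x t * ⟨x ^ p, hxp⟩, θ, hθ, hθ0, ?_, ?_⟩
      · rw [hθ, h1, add_zero]; exact h2
      · have h3 : Re (({x, x ^ (p - 1)} : Set G) ∪ Subtype.val '' T) 1 {x * (t : G)} :=
          Re.mul (Or.inl (Or.inl rfl)) (Or.inr ⟨t, ht, rfl⟩)
        have h4 := h3.step (a := x * (t : G)) (b := x ^ (p - 1)) (Or.inr rfl)
          (Or.inl (Or.inl (Or.inr rfl)))
        rw [e] at h4
        refine h4.sub ?_
        rintro z hz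
        obtain rfl : z = ((cj M x t * ⟨x ^ p, hxp⟩ : M) : G) := hz
        exact Or.inl rfl)
  have hMtop : M ≠ ⊤ := by
    intro h
    have : x ∈ M := by rw [h]; trivial
    rw [hM, hx] at this
    exact one_ne_zero this
  have hT₀ne : T₀.Nonempty := by
    rw [Set.nonempty_iff_ne_empty]
    intro h
    rw [h, Set.ncard_empty] at hT₀c
    omega
  obtain ⟨n', hn', hn2, -⟩ := IH M hMtop T hTI hTgen (hT₀ne.mono hTT) ⟨g, (hM g).2 hg⟩
  have h3 : Re (Subtype.val '' T : Set G) n' {g} := by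
    have := hn'.map (M.subtype : M →* G).toMulHom
    simp only [Set.image_singleton] at this
    exact this
  refine ⟨l + (2 * a + n'), ?_, ?_⟩
  · have h1 : Re B l {x ^ (p - 1)} := hl.src (by simpa using hxB)
    have h2 : Re (B ∪ {x ^ (p - 1)}) (2 * a) (Subtype.val '' T) := by
      refine hTRe.src ?_
      rintro z ((rfl | hz) | hz)
      · exact Or.inl hxB
      · exact Or.inr hz
      · rw [hT₀im] at hz; exact Or.inl hz.1
    exact tr h1 (tr h2 (h3.src Set.subset_union_right))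
  · have hcard : Nat.card G = p * Nat.card M := by
      rw [← M.card_mul_index, hMi, mul_comm]
    have h4 := num hn2 hl2
    rw [hcard]
    have e : l + (2 * a + n') + 2 * B.ncard = l + 2 + (n' + 2 * T.ncard) := by omega
    rw [e]
    exact h4

omit [Finite G] in
/-- choice of the pair -/
theorem exists_pair {B : Set G} (hd : 2 ≤ B.ncard) (v : G → ZMod p) (hv : ∀ b ∈ B, v b ≠ 0) :
    ∃ y₁ ∈ B, ∃ y₂ ∈ B, y₁ ≠ y₂ ∧ (p = 2 → v y₁ - v y₂ = 0) ∧
      (p ≠ 2 → 3 ≤ B.ncard → 2 * (v y₁ - v y₂) ≠ 1 ∧ 2 * (v y₁ - v y₂) ≠ -1) := by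
  have hp1 : (1 : ZMod p) ≠ 0 := one_ne_zero
  rcases Nat.lt_or_ge B.ncard 3 with h3 | h3
  · have hc : B.ncard = 2 := by omega
    obtain ⟨a, b, hab, hB⟩ := Set.ncard_eq_two.1 hc
    have ha : a ∈ B := by rw [hB]; simp
    have hb : b ∈ B := by rw [hB]; simp
    refine ⟨a, ha, b, hb, hab, ?_, fun _ h => by omega⟩
    rintro rfl
    exact z2 _ _ (hv a ha) (hv b hb)
  · obtain ⟨C, hCB, hCc⟩ := Set.exists_subset_card_eq h3
    obtain ⟨a, b, c, hab, hac, hbc, hC⟩ := Set.ncard_eq_three.1 hCc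
    have ha : a ∈ B := hCB (by rw [hC]; simp)
    have hb : b ∈ B := hCB (by rw [hC]; simp)
    have hc : c ∈ B := hCB (by rw [hC]; simp)
    by_cases hp2 : p = 2
    · refine ⟨a, ha, b, hb, hab, ?_, fun h => absurd hp2 h⟩
      subst hp2
      intro _
      exact z2 _ _ (hv a ha) (hv b hb)
    · by_cases hp3 : p = 3
      · subst hp3
        rcases z3 _ _ _ (hv a ha) (hv b hb) (hv c hc) with h | h | h
        · exact ⟨a, ha, b, hb, hab, fun h => absurd h (by norm_num), fun _ _ => by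
            rw [h, sub_self]; exact z3'⟩
        · exact ⟨b, hb, c, hc, hbc, fun h => absurd h (by norm_num), fun _ _ => by
            rw [h, sub_self]; exact z3'⟩
        · exact ⟨a, ha, c, hc, hac, fun h => absurd h (by norm_num), fun _ _ => by
            rw [h, sub_self]; exact z3'⟩
      · have h30 : (3 : ZMod p) ≠ 0 := by
          intro h
          have h1 : ((3 : ℕ) : ZMod p) = 0 := by exact_mod_cast h
          rw [ZMod.natCast_eq_zero_iff] at h1
          exact hp3 ((Nat.prime_dvd_prime_iff_eq hp.out Nat.prime_three).1 h1)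
        by_contra hcon
        push Not at hcon
        have k1 := fun h => (hcon a ha b hb hab (fun h => absurd h hp2)).2 |>.2 h
        have q1 : 2 * (v a - v b) = 1 ∨ 2 * (v a - v b) = -1 := by
          by_contra hq
          push Not at hq
          obtain ⟨_, _, h4⟩ := hcon a ha b hb hab (fun h => absurd h hp2)
          exact hq.2 (h4 hq.1)
        have q2 : 2 * (v b - v c) = 1 ∨ 2 * (v b - v c) = -1 := by
          by_contra hq
          push Not at hq
          obtain ⟨_, _, h4⟩ := hcon b hb c hc hbc (fun h => absurd h hp2)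
          exact hq.2 (h4 hq.1)
        have q3 : 2 * (v c - v a) = 1 ∨ 2 * (v c - v a) = -1 := by
          by_contra hq
          push Not at hq
          obtain ⟨_, _, h4⟩ := hcon c hc a ha hac.symm (fun h => absurd h hp2)
          exact hq.2 (h4 hq.1)
        rcases q1 with q1 | q1 <;> rcases q2 with q2 | q2 <;> rcases q3 with q3 | q3
        · exact h30 (by linear_combination -q1 - q2 - q3)
        · exact hp1 (by linear_combination -q1 - q2 - q3)
        · exact hp1 (by linear_combination -q1 - q2 - q3)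
        · exact hp1 (by linear_combination q1 + q2 + q3)
        · exact hp1 (by linear_combination -q1 - q2 - q3)
        · exact hp1 (by linear_combination q1 + q2 + q3)
        · exact hp1 (by linear_combination q1 + q2 + q3)
        · exact h30 (by linear_combination q1 + q2 + q3)

omit hp in
/-- the class of `g` modulo `N` -/
theorem exists_elt (N : Subgroup G) [N.Normal] {y₁ y₂ : G} (h12 : y₁ * y₂ ∈ N)
    (hq : ∀ z : G ⧸ N, z ∈ Subgroup.zpowers (QuotientGroup.mk' N y₁)) (g : G) :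
    g ∈ N ∨ ∃ j : ℕ, 1 ≤ j ∧ 2 * j ≤ N.index ∧ ((y₁ ^ j)⁻¹ * g ∈ N ∨ (y₂ ^ j)⁻¹ * g ∈ N) := by
  set q := QuotientGroup.mk' N y₁ with hqdef
  have hord : orderOf q = N.index := by
    rw [orderOf_eq_card_of_forall_mem_zpowers hq, Subgroup.index]
  have hy2 : QuotientGroup.mk' N y₂ = q⁻¹ := by
    have h1 : QuotientGroup.mk' N (y₁ * y₂) = 1 := (QuotientGroup.eq_one_iff _).2 h12
    rw [map_mul] at h1
    exact (inv_eq_of_mul_eq_one_right h1).symm
  classical
  have h1 := hq (QuotientGroup.mk' N g)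
  rw [← mem_powers_iff_mem_zpowers, mem_powers_iff_mem_range_orderOf, Finset.mem_image] at h1
  obtain ⟨e, he, heg⟩ := h1
  rw [Finset.mem_range, hord] at he
  rcases Nat.eq_zero_or_pos e with h0 | h0
  · left
    rw [h0, pow_zero] at heg
    exact (QuotientGroup.eq_one_iff g).1 heg.symm
  · right
    rcases Nat.lt_or_ge N.index (2 * e) with h2 | h2
    · refine ⟨N.index - e, by omega, by omega, Or.inr ?_⟩
      rw [← QuotientGroup.eq_one_iff]
      show QuotientGroup.mk' N ((y₂ ^ (N.index - e))⁻¹ * g) = 1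
      rw [map_mul, map_inv, map_pow, hy2, ← heg, inv_pow, inv_inv, ← pow_add,
        Nat.sub_add_cancel he.le, ← hord, pow_orderOf_eq_one]
    · refine ⟨e, h0, h2, Or.inl ?_⟩
      rw [← QuotientGroup.eq_one_iff]
      show QuotientGroup.mk' N ((y₁ ^ e)⁻¹ * g) = 1
      rw [map_mul, map_inv, map_pow, ← heg, inv_mul_cancel]

/-- the cost of the correction by a power of `y₁` or `y₂` -/
theorem elt_cost (hG : IsPGroup p G) (N : Subgroup G) [N.Normal] {B : Set G} {y₁ y₂ : G}
    (hy₁ : y₁ ∈ B) (hy₂ : y₂ ∈ B)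
    (h12 : y₁ * y₂ ∈ N) (hq : ∀ z : G ⧸ N, z ∈ Subgroup.zpowers (QuotientGroup.mk' N y₁))
    {δ : G → ZMod p} (hδ : IsH p δ) (hδ1 : δ y₁ = 1) (hδ2 : δ y₂ = -1)
    (hδN : ∀ z ∈ N, δ z = 0) {g : G} (hg2 : p = 2 → δ g = 0) (rr : ℕ) (hrr : rr = 2 ∨ rr = 3)
    (hg3 : p ≠ 2 → rr = 3 → 2 * δ g ≠ 1 ∧ 2 * δ g ≠ -1) :
    ∃ (g' : G) (e : ℕ), g' ∈ N ∧ Re (B ∪ {g'}) e {g} ∧ 2 ^ (e + rr) ≤ N.index ^ ex p := by
  have hNtop : N ≠ ⊤ := by
    intro h
    have h1 := hδN y₁ (by rw [h]; trivial)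
    rw [hδ1] at h1
    exact one_ne_zero h1
  obtain ⟨m, hm⟩ := hG.index N
  have hm1 : 1 ≤ m := by
    rcases Nat.eq_zero_or_pos m with h | h
    · rw [h, pow_zero, Subgroup.index_eq_one] at hm
      exact absurd hm hNtop
    · exact h
  have hpP : p ∣ N.index := by
    rw [hm]; exact dvd_pow_self p (by omega)
  have hPp : p ≤ N.index := Nat.le_of_dvd (by rw [hm]; exact pow_pos hp.out.pos m) hpP
  have h8 : 2 ^ 3 ≤ N.index ^ ex p := by
    unfold ex
    split_ifs with h2
    · exact Nat.pow_le_pow_left (h2 ▸ hPp) 3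
    · have h3 : 3 ≤ p := by
        have := hp.out.two_le
        omega
      calc 2 ^ 3 ≤ 3 ^ 2 := by norm_num
        _ ≤ N.index ^ 2 := Nat.pow_le_pow_left (h3.trans hPp) 2
  have hP0 : ((N.index : ℕ) : ZMod p) = 0 := (ZMod.natCast_eq_zero_iff _ _).2 hpP
  rcases exists_elt N h12 hq g with hgN | ⟨j, hj1, hj2, hjN⟩
  · refine ⟨g, 0, hgN, Re.refl (by simp), ?_⟩
    refine le_trans (Nat.pow_le_pow_right (by norm_num) ?_) h8
    omega
  · -- the common part
    have hδg : δ g = j ∨ δ g = -j := by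
      rcases hjN with h | h
      · left
        have h1 := hδN _ h
        rw [hδ, hδ.inv, hδ.pow, hδ1] at h1
        linear_combination h1
      · right
        have h1 := hδN _ h
        rw [hδ, hδ.inv, hδ.pow, hδ2] at h1
        linear_combination h1
    have hnum : ∀ L k : ℕ, 2 ^ L + 2 ^ k ≤ j + 1 →
        2 ^ (L + k + 1 + rr) ≤ N.index ^ ex p := by
      intro L k hLk
      by_cases h2 : p = 2
      · have hj0 : ((j : ℕ) : ZMod p) = 0 := by
          have := hg2 h2
          rcases hδg with h | h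
          · rw [← h, this]
          · rw [h] at this
            exact neg_eq_zero.1 this
        rw [ZMod.natCast_eq_zero_iff, h2] at hj0
        have hj4 : 2 ≤ j := Nat.le_of_dvd (by omega) hj0
        have h5 := ar_two hLk hj2 (by omega)
        rw [ex, if_pos h2]
        refine le_trans (Nat.pow_le_pow_right (by norm_num) ?_) h5
        omega
      · have hPodd : Odd N.index := by
          rw [hm]
          exact (hp.out.odd_of_ne_two h2).pow
        obtain ⟨P', hP'⟩ := hPodd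
        rw [ex, if_neg h2]
        rcases hrr with hr | hr
        · rw [hr]
          exact ar_R2 hLk (by omega)
        · rw [hr]
          refine ar_R3 hLk ?_
          have hne : 2 * j + 1 ≠ N.index := by
            intro h
            have h5 : (2 * (j : ZMod p) + 1) = 0 := by
              rw [← hP0, ← h]; push_cast; ring
            obtain ⟨h6, h7⟩ := hg3 h2 hr
            rcases hδg with h8 | h8
            · apply h7
              rw [h8]
              linear_combination h5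
            · apply h6
              rw [h8]
              linear_combination -h5
          omega
    have hcost : ∀ y ∈ B, (y ^ j)⁻¹ * g ∈ N → ∃ (g' : G) (e : ℕ), g' ∈ N ∧
        Re (B ∪ {g'}) e {g} ∧ 2 ^ (e + rr) ≤ N.index ^ ex p := by
      intro y hy h
      obtain ⟨L, k, h1, h2⟩ := pow_chain y j hj1
      refine ⟨(y ^ j)⁻¹ * g, L + k + 1, h, ?_, hnum L k h2⟩
      have h3 : Re (B ∪ {(y ^ j)⁻¹ * g}) (L + k) {y ^ j} := h1.src (by
        rintro z rfl
        exact Or.inl hy)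
      have h4 := h3.step (a := y ^ j) (b := (y ^ j)⁻¹ * g) (Or.inr rfl) (Or.inl (Or.inr rfl))
      have e : y ^ j * ((y ^ j)⁻¹ * g) = g := by group
      rw [e] at h4
      exact h4.sub (by simp)
    rcases hjN with h | h
    · exact hcost y₁ hy₁ h
    · exact hcost y₂ hy₂ h

end

end Pool.Agent.Helper63.PGR
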