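import Pool.Agent.Helper63.PGR.Basic

/-!
# PG (MP_d72c68_al): production of new generators of a normal subgroup
-/

set_option autoImplicit false

namespace Pool.Agent.Helper63.PGR

open Pool.Agent.Helper46.RL

section
variable {p : ℕ} [hp : Fact p.Prime] {G : Type} [Group G]

/-- The common kernel, in `G`, of the homomorphisms on `M` which vanish on `T`. -/
def Hp (p : ℕ) (M : Subgroup G) (T : Set M) : Subgroup G where
  carrier := {g | ∃ hg : g ∈ M, ∀ θ : M → ZMod p, IsH p θ → (∀ t ∈ T, θ t = 0) → θ ⟨g, hg⟩ = 0}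
  mul_mem' := by
    rintro a b ⟨ha, ha'⟩ ⟨hb, hb'⟩
    refine ⟨M.mul_mem ha hb, fun θ hθ h0 => ?_⟩
    have : (⟨a * b, M.mul_mem ha hb⟩ : M) = ⟨a, ha⟩ * ⟨b, hb⟩ := rfl
    rw [this, hθ, ha' θ hθ h0, hb' θ hθ h0, add_zero]
  one_mem' := ⟨M.one_mem, fun θ hθ _ => hθ.one⟩
  inv_mem' := by
    rintro a ⟨ha, ha'⟩
    refine ⟨M.inv_mem ha, fun θ hθ h0 => ?_⟩
    have : (⟨a⁻¹, M.inv_mem ha⟩ : M) = (⟨a, ha⟩ : M)⁻¹ := rfl
    rw [this, hθ.inv, ha' θ hθ h0, neg_zero]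

theorem mem_Hp {M : Subgroup G} {T : Set M} {g : G} : g ∈ Hp p M T ↔
    ∃ hg : g ∈ M, ∀ θ : M → ZMod p, IsH p θ → (∀ t ∈ T, θ t = 0) → θ ⟨g, hg⟩ = 0 := Iff.rfl

theorem Hp_of_mem {M : Subgroup G} {T : Set M} {t : M} (ht : t ∈ T) : (t : G) ∈ Hp p M T :=
  ⟨t.2, fun _ _ h0 => h0 t ht⟩

/-- conjugation by `x` on the normal subgroup `M` -/
def cj (M : Subgroup G) [hM : M.Normal] (x : G) (m : M) : M :=
  ⟨x * m * x⁻¹, hM.conj_mem m m.2 x⟩

theorem cj_mul (M : Subgroup G) [hM : M.Normal] (x : G) (a b : M) :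
    cj M x (a * b) = cj M x a * cj M x b := by
  apply Subtype.ext
  show x * (a * b : G) * x⁻¹ = (x * a * x⁻¹) * (x * b * x⁻¹)
  group

/-- If the annihilator of `T` is stable under conjugation by `x`, where `T` and `x` generate `G`,
then the common kernel is normal in `G`. -/
theorem Hp_normal [Finite G] (M : Subgroup G) [hM : M.Normal] (T : Set M) (x : G)
    (hgen : Subgroup.closure (Subtype.val '' T ∪ {x}) = ⊤)
    (hx : ∀ θ : M → ZMod p, IsH p θ → (∀ t ∈ T, θ t = 0) → ∀ t ∈ T, θ (cj M x t) = 0) :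
    (Hp p M T).Normal := by
  have hS : ∀ s ∈ (Subtype.val '' T ∪ {x} : Set G), ∀ k ∈ (Hp p M T : Set G),
      s * k * s⁻¹ ∈ (Hp p M T : Set G) := by
    rintro s (⟨t, ht, rfl⟩ | hs) k ⟨hk, hk'⟩
    · refine ⟨hM.conj_mem k hk t, fun θ hθ h0 => ?_⟩
      have : (⟨(t : G) * k * (t : G)⁻¹, hM.conj_mem k hk t⟩ : M) = t * ⟨k, hk⟩ * t⁻¹ := rfl
      rw [this, hθ.conj]
      exact hk' θ hθ h0
    · obtain rfl : s = x := hs
      refine ⟨hM.conj_mem k hk s, fun θ hθ h0 => ?_⟩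
      have h1 : IsH p (fun m : M => θ (cj M s m)) := by
        intro a b
        show θ (cj M s (a * b)) = _
        rw [cj_mul, hθ]
      exact hk' _ h1 (hx θ hθ h0)
  refine ⟨fun n hn g => ?_⟩
  exact conj_closed hS g (by rw [hgen]; trivial) n hn

/-- `(A)`: `M` is the kernel of `η` with `η x = 1`. -/
theorem prodA [Finite G] (hG : IsPGroup p G) {η : G → ZMod p} (hη : IsH p η) {x : G}
    (hx : η x = 1) (M : Subgroup G) [M.Normal] (hM : ∀ g, g ∈ M ↔ η g = 0) (T : Set M)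
    (hgen : Subgroup.closure (Subtype.val '' T ∪ {x}) = ⊤) (hT : Subgroup.closure T ≠ ⊤)
    (hxp : x ^ p ∈ M) :
    ∃ θ : M → ZMod p, IsH p θ ∧ (∀ t ∈ T, θ t = 0) ∧
      (θ ⟨x ^ p, hxp⟩ ≠ 0 ∨ (θ ⟨x ^ p, hxp⟩ = 0 ∧ ∃ t ∈ T, θ (cj M x t) ≠ 0)) := by
  by_contra hcon
  push Not at hcon
  have h1 : ∀ θ : M → ZMod p, IsH p θ → (∀ t ∈ T, θ t = 0) → θ ⟨x ^ p, hxp⟩ = 0 :=
    fun θ hθ h0 => (hcon θ hθ h0).1
  have h2 : ∀ θ : M → ZMod p, IsH p θ → (∀ t ∈ T, θ t = 0) → ∀ t ∈ T, θ (cj M x t) = 0 :=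
    fun θ hθ h0 => (hcon θ hθ h0).2 (h1 θ hθ h0)
  have hN := Hp_normal M T x hgen h2
  have hxH : x ^ p ∈ Hp p M T := ⟨hxp, h1⟩
  have hsup : Hp p M T ⊔ Subgroup.zpowers x = ⊤ := by
    rw [eq_top_iff, ← hgen, Subgroup.closure_le]
    rintro s (⟨t, ht, rfl⟩ | hs)
    · exact Subgroup.mem_sup_left (Hp_of_mem ht)
    · obtain rfl : s = x := hs
      exact Subgroup.mem_sup_right (Subgroup.mem_zpowers s)
  obtain ⟨θ, hθ, h0, m, hm⟩ := exists_hom (hG.to_subgroup M) (Subgroup.closure T) hT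
  have h0' : ∀ t ∈ T, θ t = 0 := fun t ht => h0 t (Subgroup.subset_closure ht)
  have hmG : (m : G) ∈ Hp p M T ⊔ Subgroup.zpowers x := by rw [hsup]; trivial
  obtain ⟨h, hh, z, hz, hhz⟩ := Subgroup.mem_sup_of_normal_left.1 hmG
  obtain ⟨i, rfl⟩ := Subgroup.mem_zpowers_iff.1 hz
  have hhM : h ∈ M := hh.1
  have hxi : x ^ i ∈ M := by
    have : x ^ i = h⁻¹ * m := by rw [← hhz]; group
    rw [this]
    exact M.mul_mem (M.inv_mem hhM) m.2
  have hi : ((i : ℤ) : ZMod p) = 0 := by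
    have h3 : η (x ^ i) = 0 := (hM _).1 hxi
    rwa [hη.zpow, hx, mul_one] at h3
  rw [ZMod.intCast_zmod_eq_zero_iff_dvd] at hi
  obtain ⟨q, rfl⟩ := hi
  have h4 : x ^ ((p : ℤ) * q) ∈ Hp p M T := by
    rw [zpow_mul, zpow_natCast]
    exact Subgroup.zpow_mem _ hxH q
  have h5 : (m : G) ∈ Hp p M T := by
    rw [← hhz]
    exact Subgroup.mul_mem _ hh h4
  obtain ⟨_, h6⟩ := h5
  exact hm (h6 θ hθ h0')

/-- `(B)`: `N` is the normal closure of `S ⊆ T`. -/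
theorem prodB [Finite G] (hG : IsPGroup p G) (S : Set G) (T : Set (Subgroup.normalClosure S))
    (hST : S ⊆ Subtype.val '' T) (x : G)
    (hgen : Subgroup.closure (Subtype.val '' T ∪ {x}) = ⊤) (hT : Subgroup.closure T ≠ ⊤) :
    ∃ θ : Subgroup.normalClosure S → ZMod p, IsH p θ ∧ (∀ t ∈ T, θ t = 0) ∧
      ∃ t ∈ T, θ (cj (Subgroup.normalClosure S) x t) ≠ 0 := by
  by_contra hcon
  push Not at hcon
  have hN := Hp_normal (Subgroup.normalClosure S) T x hgen hcon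
  have h1 : Subgroup.normalClosure S ≤ Hp p (Subgroup.normalClosure S) T := by
    refine Subgroup.normalClosure_le_normal ?_
    intro s hs
    obtain ⟨t, ht, rfl⟩ := hST hs
    exact Hp_of_mem ht
  obtain ⟨θ, hθ, h0, m, hm⟩ := exists_hom (hG.to_subgroup _) (Subgroup.closure T) hT
  obtain ⟨_, h6⟩ := h1 m.2
  exact hm (h6 θ hθ fun t ht => h0 t (Subgroup.subset_closure ht))

/-- Enlarging an independent set to a generating one; every new element costs two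
multiplications. -/
theorem enlarge [Finite G] (M : Subgroup G) (Y : Set G) (T₀ : Set M) (hI : Ind p T₀)
    (hprod : ∀ T : Set M, T₀ ⊆ T → Subgroup.closure T ≠ ⊤ → ∃ (w : M) (θ : M → ZMod p),
      IsH p θ ∧ (∀ t ∈ T, θ t = 0) ∧ θ w ≠ 0 ∧
      Re (Y ∪ Subtype.val '' T) 2 {(w : G)}) :
    ∃ (T : Set M) (a : ℕ), T₀ ⊆ T ∧ Ind p T ∧ Subgroup.closure T = ⊤ ∧
      T.ncard = T₀.ncard + a ∧ Re (Y ∪ Subtype.val '' T₀) (2 * a) (Subtype.val '' T) := by
  by_contra hcon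
  push Not at hcon
  -- arbitrarily large independent sets
  have key : ∀ a : ℕ, ∃ T : Set M, T₀ ⊆ T ∧ Ind p T ∧ T.ncard = T₀.ncard + a ∧
      Re (Y ∪ Subtype.val '' T₀) (2 * a) (Subtype.val '' T) := by
    intro a
    induction a with
    | zero => exact ⟨T₀, le_rfl, hI, rfl, Re.refl Set.subset_union_right⟩
    | succ a ih =>
      obtain ⟨T, h1, h2, h3, h4⟩ := ih
      have hT : Subgroup.closure T ≠ ⊤ := fun h => hcon T a h1 h2 h h3 h4
      obtain ⟨w, θ, hθ, h0, hw, hRe⟩ := hprod T h1 hT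
      have hwT : w ∉ T := fun h => hw (h0 w h)
      refine ⟨insert w T, h1.trans (Set.subset_insert _ _), h2.insert hθ h0 hw, ?_, ?_⟩
      · rw [Set.ncard_insert_of_notMem hwT (Set.toFinite T), h3]
        ring
      · have h5 : Re (Y ∪ Subtype.val '' T₀ ∪ Subtype.val '' T) 2 {(w : G)} := by
          refine hRe.src ?_
          rintro z (hz | hz)
          · exact Or.inl (Or.inl hz)
          · exact Or.inr hz
        have h6 := h4.trans h5
        rw [Set.image_insert_eq, Set.insert_eq, Set.union_comm {(w : G)}]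
        exact h6
  obtain ⟨T, -, -, h3, -⟩ := key (Nat.card M + 1)
  have h4 := Set.ncard_le_card T
  omega

end

end Pool.Agent.Helper63.PGR
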